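import Mathlib

/-!
# Pointwise distance distributions do not determine planar clouds

Two non-isometric clouds of 10 points in the plane with the same pointwise distance
distribution (the same multiset of sorted rows of distances).
-/

namespace Pool.Agent.Results.MP_8766ea_co.PlanarPDDIncomplete

/-- The Euclidean plane. -/
abbrev Plane := EuclideanSpace ℝ (Fin 2)

/-- The row of `p` in the cloud `C`: the distances from `p` to the other points of `C`,
listed in non-decreasing order. -/
noncomputable def row (C : Finset Plane) (p : Plane) : List ℝ :=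
  ((C.erase p).val.map (fun q => dist p q)).sort (· ≤ ·)

/-- The pointwise distance distribution `PDD(C; m-1)`: the multiset of the rows of the points
of `C` (equal rows are counted with multiplicity). -/
noncomputable def PDD (C : Finset Plane) : Multiset (List ℝ) :=
  C.val.map (row C)

/-- Two clouds are isometric if an isometry of the plane (reflections allowed) takes one onto
the other. -/
def IsometricClouds (C C' : Finset Plane) : Prop :=
  ∃ f : Plane ≃ᵢ Plane, f '' (C : Set Plane) = (C' : Set Plane)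

/-- squared length of the vector with coordinates `a` in the triangular lattice -/
def N (a b : ℤ × ℤ) : ℤ :=
  (a.1 - b.1) ^ 2 + (a.1 - b.1) * (a.2 - b.2) + (a.2 - b.2) ^ 2

/-- the point of the triangular lattice with coordinates `a` -/
noncomputable def pt (a : ℤ × ℤ) : Plane :=
  !₂[(a.1 : ℝ) + (a.2 : ℝ) / 2, (a.2 : ℝ) * (Real.sqrt 3 / 2)]

lemma dist_pt (a b : ℤ × ℤ) : dist (pt a) (pt b) = Real.sqrt ((N a b : ℤ) : ℝ) := by
  have h3 : Real.sqrt 3 ^ 2 = 3 := Real.sq_sqrt (by norm_num)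
  rw [EuclideanSpace.dist_eq]
  congr 1
  simp only [Fin.sum_univ_two, Real.dist_eq, sq_abs, pt, N, PiLp.toLp_apply, Matrix.cons_val_zero,
    Matrix.cons_val_one]
  push_cast
  nlinarith [h3]

lemma N_eq_zero {a b : ℤ × ℤ} (h : N a b = 0) : a = b := by
  unfold N at h
  have h1 : (a.1 - b.1) = 0 ∧ (a.2 - b.2) = 0 := by
    constructor <;> nlinarith [sq_nonneg ((a.1 - b.1) + (a.2 - b.2)), sq_nonneg (a.1 - b.1),
      sq_nonneg (a.2 - b.2)]
  obtain ⟨h1, h2⟩ := h1
  ext <;> omega

lemma N_nonneg (a b : ℤ × ℤ) : 0 ≤ N a b := by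
  unfold N
  nlinarith [sq_nonneg ((a.1 - b.1) + (a.2 - b.2)), sq_nonneg (a.1 - b.1),
      sq_nonneg (a.2 - b.2)]

lemma pt_injective : Function.Injective pt := by
  intro a b h
  have h1 : dist (pt a) (pt b) = 0 := by rw [h, dist_self]
  rw [dist_pt, Real.sqrt_eq_zero (by exact_mod_cast N_nonneg a b)] at h1
  exact N_eq_zero (by exact_mod_cast h1)

/-- the embedding of the lattice -/
noncomputable def ptE : (ℤ × ℤ) ↪ Plane := ⟨pt, pt_injective⟩

/-- integral row -/
def rowZ (A : Finset (ℤ × ℤ)) (a : ℤ × ℤ) : Multiset ℤ :=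
  (A.erase a).val.map (fun b => N a b)

lemma row_map (A : Finset (ℤ × ℤ)) (a : ℤ × ℤ) :
    row (A.map ptE) (ptE a) =
      ((rowZ A a).map (fun n : ℤ => Real.sqrt (n : ℝ))).sort (· ≤ ·) := by
  unfold row rowZ
  congr 1
  have h1 : (A.map ptE).erase (ptE a) = (A.erase a).map ptE := by
    rw [Finset.map_erase]
  rw [h1, Finset.map_val, Multiset.map_map, Multiset.map_map]
  apply Multiset.map_congr rfl
  intro b _
  exact dist_pt a b

lemma PDD_map (A : Finset (ℤ × ℤ)) :
    PDD (A.map ptE) =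
      (A.val.map (rowZ A)).map
        (fun M => (M.map (fun n : ℤ => Real.sqrt (n : ℝ))).sort (· ≤ ·)) := by
  unfold PDD
  rw [Finset.map_val, Multiset.map_map, Multiset.map_map]
  apply Multiset.map_congr rfl
  intro a _
  exact row_map A a

/-- first cloud, in lattice coordinates -/
def A : Finset (ℤ × ℤ) :=
  {(0, 0), (0, 2), (0, 3), (2, 1), (2, 3), (2, 4), (3, 0), (3, 3), (4, 0), (4, 4)}

/-- second cloud, in lattice coordinates -/
def B : Finset (ℤ × ℤ) :=
  {(0, 0), (0, 2), (0, 3), (1, 2), (2, 4), (3, 0), (3, 2), (3, 3), (4, 0), (4, 4)}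

set_option maxRecDepth 100000 in
lemma rows_eq : A.val.map (rowZ A) = B.val.map (rowZ B) := by
  decide +kernel

set_option maxRecDepth 100000 in
lemma no_five : ∀ q0 ∈ B, ∀ q1 ∈ B, N q0 q1 = 48 → ∀ q4 ∈ B, N q0 q4 = 27 → N q1 q4 = 3 →
    ∀ q2 ∈ B, N q0 q2 = 4 → ∀ q3 ∈ B, N q0 q3 = 7 → ¬ N q2 q3 = 3 := by
  decide +kernel

/-- The two clouds of 10 points are not isometric but have the same PDD. -/
theorem result : ∃ C C' : Finset Plane, C.card = 10 ∧ C'.card = 10 ∧ PDD C = PDD C' ∧
    ¬ IsometricClouds C C' := by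
  refine ⟨A.map ptE, B.map ptE, ?_, ?_, ?_, ?_⟩
  · rw [Finset.card_map]; decide +kernel
  · rw [Finset.card_map]; decide +kernel
  · rw [PDD_map, PDD_map, rows_eq]
  · rintro ⟨f, hf⟩
    have key : ∀ a ∈ A, ∃ b ∈ B, f (pt a) = pt b := by
      intro a ha
      have h1 : f (pt a) ∈ ((B.map ptE : Finset Plane) : Set Plane) := by
        rw [← hf]
        exact ⟨pt a, Finset.mem_coe.2 (Finset.mem_map.2 ⟨a, ha, rfl⟩), rfl⟩
      have h2 : f (pt a) ∈ B.map ptE := by exact_mod_cast h1
      rw [Finset.mem_map] at h2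
      obtain ⟨b, hb, hb2⟩ := h2
      exact ⟨b, hb, hb2.symm⟩
    have keyN : ∀ a b c d : ℤ × ℤ, f (pt a) = pt c → f (pt b) = pt d → N c d = N a b := by
      intro a b c d h1 h2
      have h3 : dist (pt c) (pt d) = dist (pt a) (pt b) := by
        rw [← h1, ← h2, f.isometry.dist_eq]
      rw [dist_pt, dist_pt] at h3
      have h4 := (Real.sqrt_inj (by exact_mod_cast N_nonneg c d)
        (by exact_mod_cast N_nonneg a b)).1 h3
      exact_mod_cast h4
    obtain ⟨q0, hq0, e0⟩ := key (0, 0) (by decide)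
    obtain ⟨q1, hq1, e1⟩ := key (4, 4) (by decide)
    obtain ⟨q2, hq2, e2⟩ := key (0, 2) (by decide)
    obtain ⟨q3, hq3, e3⟩ := key (2, 1) (by decide)
    obtain ⟨q4, hq4, e4⟩ := key (3, 3) (by decide)
    exact no_five q0 hq0 q1 hq1 (by rw [keyN _ _ _ _ e0 e1]; decide)
      q4 hq4 (by rw [keyN _ _ _ _ e0 e4]; decide) (by rw [keyN _ _ _ _ e1 e4]; decide)
      q2 hq2 (by rw [keyN _ _ _ _ e0 e2]; decide)
      q3 hq3 (by rw [keyN _ _ _ _ e0 e3]; decide)
      (by rw [keyN _ _ _ _ e2 e3]; decide)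

end Pool.Agent.Results.MP_8766ea_co.PlanarPDDIncomplete
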